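import Mathlib
import Pool.Agent.Y419.RT.DimCore

/-!
# Adapted bases and integral matrices

The lemma `ad_aux` is a copy of `Pool.Agent.Y287.RT.ad_aux` of the starting tree.
-/

set_option autoImplicit false

namespace Pool.Agent.Run7.h280.ZP

open Module Pool.Agent.Y419.RT

/-- bases of a space of functions adapted to real labels -/
theorem ad_aux (K : Type) [Field K] (G : Type) [Fintype G] (val : G → ℝ) :
    ∀ (d : ℕ) (W : Submodule K (G → K)), finrank K W = d →
    ∃ (z : Fin d → (G → K)) (τ : Fin d → G), LinearIndependent K z ∧ (∀ j, z j ∈ W) ∧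
      Function.Injective τ ∧ (∀ j, z j (τ j) ≠ 0) ∧ ∀ j g, z j g ≠ 0 → val (τ j) ≤ val g := by
  intro d
  induction d with
  | zero =>
    intro W _
    exact ⟨fun j => j.elim0, fun j => j.elim0, linearIndependent_empty_type, fun j => j.elim0,
      fun j => j.elim0, fun j => j.elim0, fun j => j.elim0⟩
  | succ d ih =>
    intro W hW
    classical
    obtain ⟨g0, hg0, hmin⟩ : ∃ g0 ∈ (Finset.univ.filter fun g : G => ∃ z ∈ W, z g ≠ 0),
        ∀ g ∈ (Finset.univ.filter fun g : G => ∃ z ∈ W, z g ≠ 0), val g0 ≤ val g := by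
      apply Finset.exists_min_image
      have hne : W ≠ ⊥ := by
        rintro rfl
        rw [finrank_bot] at hW
        omega
      obtain ⟨w, hw, hw0⟩ := Submodule.exists_mem_ne_zero_of_ne_bot hne
      obtain ⟨g, hg⟩ := Function.ne_iff.1 hw0
      exact ⟨g, Finset.mem_filter.2 ⟨Finset.mem_univ _, w, hw, hg⟩⟩
    obtain ⟨-, z0, hz0, hz0g⟩ := Finset.mem_filter.1 hg0
    obtain ⟨ℓ, hℓ⟩ : ∃ ℓ : W →ₗ[K] K, ∀ w, ℓ w = (w : G → K) g0 :=
      ⟨(LinearMap.proj g0).comp W.subtype, fun w => rfl⟩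
    have hsurj : LinearMap.range ℓ = ⊤ := by
      rw [LinearMap.range_eq_top]
      intro c
      refine ⟨(c / z0 g0) • ⟨z0, hz0⟩, ?_⟩
      rw [map_smul, hℓ, smul_eq_mul]
      exact div_mul_cancel₀ c hz0g
    have hker : finrank K (LinearMap.ker ℓ) = d := by
      have h1 := LinearMap.finrank_range_add_finrank_ker ℓ
      rw [hsurj, finrank_top, finrank_self, hW] at h1
      omega
    have hker' : finrank K ((LinearMap.ker ℓ).map W.subtype) = d := by
      rw [Submodule.finrank_map_subtype_eq, hker]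
    obtain ⟨z, τ, h1, h2, h3, h4, h5⟩ := ih _ hker'
    have hmem : ∀ w ∈ (LinearMap.ker ℓ).map W.subtype, w ∈ W ∧ w g0 = 0 := by
      rintro w ⟨w', hw', rfl⟩
      refine ⟨w'.2, ?_⟩
      have h6 := LinearMap.mem_ker.1 hw'
      rw [hℓ] at h6
      exact h6
    refine ⟨Fin.cons z0 z, Fin.cons g0 τ, ?_, ?_, ?_, ?_, ?_⟩
    · rw [linearIndependent_finCons]
      refine ⟨h1, fun hspan => ?_⟩
      have h6 : Submodule.span K (Set.range z) ≤ (LinearMap.ker ℓ).map W.subtype := by
        rw [Submodule.span_le]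
        rintro _ ⟨j, rfl⟩
        exact h2 j
      exact hz0g (hmem _ (h6 hspan)).2
    · intro j
      refine Fin.cases ?_ (fun j => ?_) j
      · exact hz0
      · exact (hmem _ (h2 j)).1
    · rw [Fin.cons_injective_iff]
      refine ⟨?_, h3⟩
      rintro ⟨j, hj⟩
      exact h4 j (by rw [hj]; exact (hmem _ (h2 j)).2)
    · intro j
      refine Fin.cases ?_ (fun j => ?_) j
      · exact hz0g
      · exact h4 j
    · intro j
      refine Fin.cases ?_ (fun j => ?_) j
      · intro g hg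
        exact hmin g (Finset.mem_filter.2 ⟨Finset.mem_univ _, z0, hz0, hg⟩)
      · exact fun g hg => h5 j g hg

/-- number of smaller labels -/
noncomputable def rk {G : Type} [Fintype G] (val : G → ℝ) (g : G) : Fin (Fintype.card G + 1) :=
  ⟨(Finset.univ.filter fun g' => val g' < val g).card,
    Nat.lt_succ_of_le (Finset.card_le_univ _)⟩

lemma rk_le {G : Type} [Fintype G] (val : G → ℝ) (g g' : G) (h : rk val g ≤ rk val g') :
    val g ≤ val g' := by
  by_contra hlt
  push Not at hlt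
  have h1 : (Finset.univ.filter fun q => val q < val g').card <
      (Finset.univ.filter fun q => val q < val g).card := by
    refine Finset.card_lt_card ?_
    rw [Finset.ssubset_iff_of_subset ?_]
    · exact ⟨g', by simp [hlt], by simp⟩
    · intro q hq
      simp only [Finset.mem_filter, Finset.mem_univ, true_and] at hq ⊢
      exact hq.trans hlt
  exact absurd h (not_le.2 h1)

/-- finitely many adapted bases suffice for all labels -/
lemma ad_fin {G : Type} [Fintype G] (W : Submodule ℚ (G → ℚ)) :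
    ∃ (z : (G → Fin (Fintype.card G + 1)) → Fin (finrank ℚ W) → (G → ℚ))
      (τ : (G → Fin (Fintype.card G + 1)) → Fin (finrank ℚ W) → G),
      ∀ R, LinearIndependent ℚ (z R) ∧ (∀ j, z R j ∈ W) ∧ Function.Injective (τ R) ∧
        ∀ j g, z R j g ≠ 0 → R (τ R j) ≤ R g := by
  choose z τ h1 h2 h3 h4 h5 using fun R : G → Fin (Fintype.card G + 1) =>
    ad_aux ℚ G (fun g => ((R g : ℕ) : ℝ)) (finrank ℚ W) W rfl
  exact ⟨z, τ, fun R => ⟨h1 R, h2 R, h3 R, fun j g hg => by exact_mod_cast h5 R j g hg⟩⟩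

/-- common denominators -/
lemma common_den {ι : Type} [Fintype ι] (q : ι → ℚ) :
    ∃ (D : ℤ) (k : ι → ℤ), D ≠ 0 ∧ ∀ i, (k i : ℚ) = D * q i := by
  classical
  refine ⟨∏ i, ((q i).den : ℤ), fun i => (∏ j ∈ Finset.univ.erase i, ((q j).den : ℤ)) * (q i).num,
    Finset.prod_ne_zero_iff.2 fun i _ => by exact_mod_cast (q i).den_ne_zero, fun i => ?_⟩
  rw [← Finset.mul_prod_erase _ _ (Finset.mem_univ i)]
  push_cast
  have h2 : (q i : ℚ) * (q i).den = (q i).num := Rat.mul_den_eq_num (q i)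
  rw [← h2]
  ring

/-- integral matrices between two bases -/
lemma int_matrix {G : Type} [Fintype G] (W : Submodule ℚ (G → ℚ)) {M : ℕ}
    (φ : Basis (Fin M) ℚ W) (z : Fin M → (G → ℚ)) (hz : LinearIndependent ℚ z)
    (hW : ∀ j, z j ∈ W) :
    ∃ (A : Matrix (Fin M) (Fin M) ℤ) (ζ : Fin M → G → ℤ), A.det ≠ 0 ∧
      (∀ l g, ∑ j, (A l j : ℚ) * (φ j : G → ℚ) g = ζ l g) ∧ ∀ l g, ζ l g ≠ 0 → z l g ≠ 0 := by
  classical
  obtain ⟨D, k, hD, hk⟩ := common_den (ι := (Fin M × Fin M) ⊕ (Fin M × G))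
    (Sum.elim (fun q => φ.repr ⟨z q.1, hW q.1⟩ q.2) (fun q => z q.1 q.2))
  set A : Matrix (Fin M) (Fin M) ℤ := fun l j => k (Sum.inl (l, j)) with hA
  have hA1 : ∀ l j, (A l j : ℚ) = D * φ.repr ⟨z l, hW l⟩ j := fun l j => hk (Sum.inl (l, j))
  have hζ1 : ∀ l g, (k (Sum.inr (l, g)) : ℚ) = D * z l g := fun l g => hk (Sum.inr (l, g))
  have hsum : ∀ l g, ∑ j, (A l j : ℚ) * (φ j : G → ℚ) g = D * z l g := by
    intro l g
    have h1 := congrArg (fun w : W => (w : G → ℚ) g) (φ.sum_repr ⟨z l, hW l⟩)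
    simp only [AddSubmonoidClass.coe_finsetSum, SetLike.val_smul, Finset.sum_apply, Pi.smul_apply,
      smul_eq_mul] at h1
    rw [← h1, Finset.mul_sum]
    refine Finset.sum_congr rfl fun j _ => ?_
    rw [hA1]
    ring
  have hDQ : (D : ℚ) ≠ 0 := by exact_mod_cast hD
  refine ⟨A, fun l g => k (Sum.inr (l, g)), ?_, fun l g => by rw [hsum, hζ1], ?_⟩
  · intro hdet
    obtain ⟨v, hv, hvA⟩ := Matrix.exists_vecMul_eq_zero_iff.2 hdet
    apply hv
    have h1 : ∑ l, ((v l : ℚ)) • z l = 0 := by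
      funext g
      rw [Finset.sum_apply, Pi.zero_apply]
      simp only [Pi.smul_apply, smul_eq_mul]
      have h2 : D * ∑ l, (v l : ℚ) * z l g = 0 := by
        calc D * ∑ l, (v l : ℚ) * z l g = ∑ l, (v l : ℚ) * (D * z l g) := by
              rw [Finset.mul_sum]
              exact Finset.sum_congr rfl fun l _ => by ring
          _ = ∑ l, (v l : ℚ) * ∑ j, (A l j : ℚ) * (φ j : G → ℚ) g := by simp only [hsum]
          _ = ∑ j, (∑ l, (v l : ℚ) * (A l j : ℚ)) * (φ j : G → ℚ) g := by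
              simp only [Finset.mul_sum, Finset.sum_mul]
              rw [Finset.sum_comm]
              exact Finset.sum_congr rfl fun j _ => Finset.sum_congr rfl fun l _ => by ring
          _ = 0 := by
              refine Finset.sum_eq_zero fun j _ => ?_
              have h3 := congrFun hvA j
              have h4 : ∑ l, (v l : ℚ) * (A l j : ℚ) = 0 := by
                have h5 : ∑ l, v l * A l j = 0 := h3
                exact_mod_cast h5
              rw [h4, zero_mul]
      exact (mul_eq_zero.1 h2).resolve_left hDQ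
    have h2 := Fintype.linearIndependent_iff.1 hz (fun l => (v l : ℚ)) h1
    funext l
    exact_mod_cast h2 l
  · intro l g h hz0
    apply h
    have h1 := hζ1 l g
    rw [hz0, mul_zero] at h1
    exact_mod_cast h1

/-- the degree -/
lemma choose_N {d : ℕ} (f g : MvPolynomial (Fin d) ℚ) (hf : f ≠ 0) (hg : g ≠ 0)
    (hrel : IsRelPrime f g) (s : ℕ) (ε : ℝ) (hε : 0 < ε) :
    ∃ N : ℕ, 1 ≤ finrank ℚ (WW f g N) ∧
      (s : ℝ) * ((((N : ℝ) + 1) ^ d - finrank ℚ (WW f g N)) * ((N * d : ℕ) : ℝ)) ≤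
        finrank ℚ (WW f g N) * (ε / 2) := by
  obtain ⟨c, hc⟩ := dim_core f g hf hg hrel
  set c' : ℝ := max c 0 with hc'
  have hc0 : 0 ≤ c' := le_max_right _ _
  obtain ⟨N, hN⟩ : ∃ N : ℕ, max (2 * c' + 2) (4 * s * d * c' / ε) ≤ N := exists_nat_ge _
  have hN1 : 2 * c' + 2 ≤ (N : ℝ) := (le_max_left _ _).trans hN
  have hN2 : 4 * s * d * c' / ε ≤ (N : ℝ) := (le_max_right _ _).trans hN
  refine ⟨N, ?_⟩
  set x : ℝ := (N : ℝ) + 1 with hx
  set M : ℝ := (finrank ℚ (WW f g N) : ℝ) with hM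
  have hx1 : 1 ≤ x := by
    rw [hx]
    linarith
  have hxd : 1 ≤ x ^ d := one_le_pow₀ hx1
  have h1 : x ^ 2 * (x ^ d - M) ≤ c' * x ^ d :=
    (hc N).trans (mul_le_mul_of_nonneg_right (le_max_left _ _) (by linarith))
  have hx2 : 2 * c' ≤ x ^ 2 := by nlinarith
  have hMge : x ^ d / 2 ≤ M := by
    have h2 : x ^ 2 * (x ^ d - M) ≤ x ^ 2 * (x ^ d / 2) := by
      refine h1.trans ?_
      have h3 := mul_le_mul_of_nonneg_right hx2 (show (0 : ℝ) ≤ x ^ d by linarith)
      linarith
    have h3 := le_of_mul_le_mul_left h2 (by positivity)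
    linarith
  have hM0 : 0 < M := by linarith
  refine ⟨?_, ?_⟩
  · have h2 : (0 : ℝ) < ((finrank ℚ (WW f g N) : ℕ) : ℝ) := hM0
    exact_mod_cast h2
  · push_cast
    have hNx : (N : ℝ) ≤ x := by rw [hx]; linarith
    have h4 : x * (x ^ d - M) ≤ c' * x ^ d / x := by
      rw [le_div_iff₀ (by linarith)]
      calc x * (x ^ d - M) * x = x ^ 2 * (x ^ d - M) := by ring
        _ ≤ _ := h1
    by_cases h5 : x ^ d - M ≤ 0
    · have h6 : (s : ℝ) * ((x ^ d - M) * (N * d)) ≤ 0 := by
        have h7 : (x ^ d - M) * ((N : ℝ) * d) ≤ 0 :=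
          mul_nonpos_of_nonpos_of_nonneg h5 (by positivity)
        exact mul_nonpos_of_nonneg_of_nonpos (by positivity) h7
      exact h6.trans (by positivity)
    · push Not at h5
      have h6 : (s : ℝ) * ((x ^ d - M) * (N * d)) ≤ s * (d * (c' * x ^ d / x)) := by
        refine mul_le_mul_of_nonneg_left ?_ (Nat.cast_nonneg _)
        calc (x ^ d - M) * ((N : ℝ) * d) ≤ (x ^ d - M) * (x * d) := by
              refine mul_le_mul_of_nonneg_left ?_ h5.le
              exact mul_le_mul_of_nonneg_right hNx (Nat.cast_nonneg _)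
          _ = d * (x * (x ^ d - M)) := by ring
          _ ≤ _ := mul_le_mul_of_nonneg_left h4 (Nat.cast_nonneg _)
      refine h6.trans ?_
      have h7 : 4 * s * d * c' / ε ≤ x := hN2.trans hNx
      rw [div_le_iff₀ hε] at h7
      have h8 : (s : ℝ) * (d * (c' * x ^ d / x)) = (s * d * c') * x ^ d / x := by ring
      rw [h8, div_le_iff₀ (by linarith)]
      have h9 : (s : ℝ) * d * c' * x ^ d ≤ (x * ε / 4) * x ^ d :=
        mul_le_mul_of_nonneg_right (by linarith) (by linarith)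
      have h10 : x ^ d / 2 * (ε / 2 * x) ≤ M * (ε / 2 * x) :=
        mul_le_mul_of_nonneg_right hMge (by positivity)
      calc (s : ℝ) * d * c' * x ^ d ≤ (x * ε / 4) * x ^ d := h9
        _ = x ^ d / 2 * (ε / 2 * x) := by ring
        _ ≤ M * (ε / 2 * x) := h10
        _ = M * (ε / 2) * x := by ring

end Pool.Agent.Run7.h280.ZP
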