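import Mathlib
import Pool.Agent.TH551.ZP.Fin
import Pool.Agent.TH551.SU.CS
import Pool.Agent.TH551.SU.Sui
import Pool.Agent.TH551.SU.WT
import Pool.Agent.Run7.h280.ZP.Lin

/-!
# The value of a polynomial at a germ of S-units is not a small number times an S-unit
-/

set_option autoImplicit false

namespace Pool.Agent.Run7.h280.ZP

open Filter Topology Pool.Agent.TH932.Germs Pool.Agent.TH551.SU Pool.Agent.TH551.ZP
open Pool.Agent.TH551.SU.Ht Pool.Agent.TH551.SU.WT Pool.Agent.TH551.ZP.Fin'

lemma all_mem {L : ℕ → ℝ} (hL : Tendsto L atTop atTop) {n : ℕ} (f : MvPolynomial (Fin n) ℚ)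
    (hf : Full f) (U : Fin n → GG) (hU : ∀ j, U j ≠ 0)
    (h : ∀ a ∈ f.support, ∀ a' ∈ f.support,
      mon U (fun j => (a j : ℤ) - (a' j : ℤ)) ∈ KK L hL) (j : Fin n) : U j ∈ KK L hL := by
  classical
  have htop : Wsp hL U = ⊤ := by
    by_contra hne
    obtain ⟨lam, hlam0, hlam⟩ := Submodule.exists_le_ker_of_lt_top _ (lt_top_iff_ne_top.2 hne)
    obtain ⟨D, k, hD, hk⟩ := common_den (fun j => lam (Pi.single j 1))
    have hDQ : (D : ℚ) ≠ 0 := by exact_mod_cast hD
    have hlamx : ∀ x : Fin n → ℚ, lam x = ∑ j, x j * lam (Pi.single j 1) := by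
      intro x
      rw [LinearMap.pi_apply_eq_sum_univ lam x]
      refine Finset.sum_congr rfl fun i _ => ?_
      rw [smul_eq_mul]
      congr 2
      funext j
      simp [Pi.single_apply, eq_comm]
    have hk0 : k = 0 := by
      apply hf
      intro a ha a' ha'
      have h1 : cst (fun j => (a j : ℤ) - (a' j : ℤ)) ∈ Wsp hL U :=
        Submodule.subset_span ⟨_, rfl, h a ha a' ha'⟩
      have h2 : lam (cst fun j => (a j : ℤ) - (a' j : ℤ)) = 0 := hlam h1
      rw [hlamx] at h2
      have h3 : (((∑ j, k j * ((a j : ℤ) - (a' j : ℤ)) : ℤ)) : ℚ) =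
          D * ∑ j, cst (fun j => (a j : ℤ) - (a' j : ℤ)) j * lam (Pi.single j 1) := by
        push_cast
        rw [Finset.mul_sum]
        refine Finset.sum_congr rfl fun j _ => ?_
        rw [hk]
        unfold cst
        push_cast
        ring
      rw [h2, mul_zero] at h3
      exact_mod_cast h3
    apply hlam0
    apply LinearMap.ext
    intro x
    rw [hlamx, LinearMap.zero_apply]
    refine Finset.sum_eq_zero fun j _ => ?_
    have h1 := hk j
    rw [hk0, Pi.zero_apply, Int.cast_zero] at h1
    rw [(mul_eq_zero.1 h1.symm).resolve_left hDQ, mul_zero]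
  have h1 : cst (fun i => if i = j then (1 : ℤ) else 0) ∈ Wsp hL U := by
    rw [htop]
    exact Submodule.mem_top
  have h2 := Wsp_int hL hU h1
  rwa [mon_single] at h2

theorem free : FreeStmt := by
  classical
  intro s b hb hbi n f hfull L hL U hU hgen hnot N hN w hw heq
  have hb0 : ∀ v, b v ≠ 0 := fun v => (hb v).ne_zero
  have hU0 : ∀ j, U j ≠ 0 := fun j => by
    have := hgen (MvPolynomial.X j) (MvPolynomial.X_ne_zero j)
    rwa [MvPolynomial.aeval_X] at this
  have hne0 : ∀ g : GG, GSU b g → g ≠ 0 := by
    rintro g ⟨a, rfl, ha⟩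
    rw [gm_ne_zero]
    exact Eventually.of_forall fun n => IsSU.ne' hb0 (ha n)
  have hw0 : w ≠ 0 := hne0 w hw
  obtain ⟨j, hj⟩ := hnot
  apply hj
  refine all_mem hL f hfull U hU0 ?_ j
  intro α hα β hβ
  by_contra hcon
  set m : (Fin (n + 1) →₀ ℕ) → GG := fun a => ∏ j, U j ^ (a j) with hm
  have hm0 : ∀ a, m a ≠ 0 := fun a => Finset.prod_ne_zero_iff.2 fun j _ => pow_ne_zero _ (hU0 j)
  have hmon : mon U (fun j => (α j : ℤ) - (β j : ℤ)) = m α / m β := by
    rw [mon_sub hU0]
    unfold mon
    simp only [zpow_natCast, hm]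
  have hmSU : ∀ a, GSU b (m a) := by
    intro a
    choose x hx hx2 using hU
    refine ⟨fun t => ∏ j, x j t ^ (a j), ?_, fun t => ?_⟩
    · simp only [hm]
      have h1 : ∀ A : Finset (Fin (n + 1)), ∏ j ∈ A, U j ^ (a j) =
          gm (fun t => ∏ j ∈ A, x j t ^ (a j)) := by
        intro A
        induction A using Finset.induction_on with
        | empty => simp [gm_one]
        | insert y A hy ih =>
          rw [Finset.prod_insert hy, ih, hx y, gm_pow, gm_mul]
          congr 1
          funext t
          rw [Finset.prod_insert hy]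
      exact h1 _
    · exact IsSU.prod' hb0 _ _ fun j _ => IsSU.pow' hb0 (hx2 j t) _
  obtain ⟨γ, hγ, hγw⟩ : ∃ γ ∈ f.support, w / m γ ∉ KK L hL := by
    by_contra h
    push Not at h
    apply hcon
    rw [hmon]
    have h1 : m α / m β = (w / m β) / (w / m α) := by
      have := hm0 α
      have := hm0 β
      field_simp
    rw [h1]
    exact (KK L hL).div_mem (h β hβ) (h α hα)
  have hq : ∀ q : ℚ, algebraMap ℚ GG q ∈ KK L hL := by
    intro q
    rw [eq_ratCast]
    exact SubfieldClass.ratCast_mem _ _
  set a : Option (Fin (n + 1) →₀ ℕ) → KK L hL := fun i =>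
    i.elim (-⟨N, hN⟩) (fun c => ⟨algebraMap ℚ GG (f.coeff c), hq _⟩) with ha
  set g : Option (Fin (n + 1) →₀ ℕ) → GG := fun i => i.elim w m with hg
  set lab : Option (Fin (n + 1) →₀ ℕ) → ℕ := fun i => if g i / m γ ∈ KK L hL then 1 else 0
    with hlab
  have haev : ∀ p : MvPolynomial (Fin (n + 1)) ℚ, MvPolynomial.aeval U p =
      ∑ c ∈ p.support, algebraMap ℚ GG (p.coeff c) * m c := by
    intro p
    rw [MvPolynomial.aeval_def, MvPolynomial.eval₂_eq']
  have key := CS.cs SUI.sui s b hb hbi L hL _ (Finset.insertNone f.support) a g lab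
    (fun i _ => by
      cases i with
      | none => exact hw
      | some c => exact hmSU c)
    (fun i _ i' _ hii => by
      simp only [hlab]
      have hgi : g i' ≠ 0 := by
        cases i' with
        | none => exact hw0
        | some c => exact hm0 c
      have h1 : g i / m γ ∈ KK L hL ↔ g i' / m γ ∈ KK L hL := by
        have h2 : g i / m γ = (g i / g i') * (g i' / m γ) := by
          field_simp
        constructor
        · intro h3
          have h4 : g i / g i' ≠ 0 := by
            refine div_ne_zero ?_ hgi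
            cases i with
            | none => exact hw0
            | some c => exact hm0 c
          have h5 : g i' / m γ = (g i / m γ) / (g i / g i') := by
            rw [h2, mul_div_cancel_left₀ _ h4]
          rw [h5]
          exact (KK L hL).div_mem h3 hii
        · intro h3
          rw [h2]
          exact (KK L hL).mul_mem hii h3
      simp only [h1])
    (by
      rw [Finset.sum_insertNone]
      simp only [ha, hg, Option.elim]
      rw [← haev f, heq]
      simp)
  have key1 := congrArg (fun p : Polynomial GG => p.coeff 1) key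
  simp only [Polynomial.finsetSum_coeff, Polynomial.coeff_C_mul_X_pow, Polynomial.coeff_zero]
    at key1
  rw [Finset.sum_insertNone] at key1
  have hnone : ¬ (1 = lab none) := by
    have h1 : lab none = 0 := by
      simp only [hlab]
      rw [if_neg]
      exact hγw
    rw [h1]
    exact one_ne_zero
  rw [if_neg hnone, zero_add, ← Finset.sum_filter] at key1
  set p : MvPolynomial (Fin (n + 1)) ℚ := ∑ c ∈ f.support with 1 = lab (some c),
    MvPolynomial.monomial c (f.coeff c) with hp
  have hp0 : p ≠ 0 := by
    intro h0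
    have h1 := congrArg (MvPolynomial.coeff γ) h0
    rw [hp, MvPolynomial.coeff_sum, Finset.sum_eq_single γ] at h1
    · rw [MvPolynomial.coeff_monomial, if_pos rfl, MvPolynomial.coeff_zero] at h1
      exact MvPolynomial.mem_support_iff.1 hγ h1
    · intro c _ hc
      rw [MvPolynomial.coeff_monomial, if_neg hc]
    · intro h2
      exfalso
      apply h2
      rw [Finset.mem_filter]
      refine ⟨hγ, ?_⟩
      simp only [hlab]
      rw [if_pos]
      show m γ / m γ ∈ KK L hL
      rw [div_self (hm0 γ)]
      exact (KK L hL).one_mem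
  apply hgen p hp0
  rw [hp, map_sum]
  refine Eq.trans ?_ key1
  refine Finset.sum_congr rfl fun c _ => ?_
  rw [MvPolynomial.aeval_monomial]
  simp only [ha, hg, Option.elim]
  congr 1
  rw [Finsupp.prod_fintype _ _ (fun i => pow_zero _)]

end Pool.Agent.Run7.h280.ZP
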