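import Mathlib
import Pool.Agent.TH551.ZP.Fin
import Pool.Agent.TH551.SU.Sst
import Pool.Agent.Run7.h280.ZP.Lin

/-!
# The greatest common divisor of the values of two coprime polynomials at S-unit points
-/

set_option autoImplicit false

namespace Pool.Agent.Run7.h280.ZP

open Filter Topology Module Pool.Agent.TH551.SU Pool.Agent.TH551.ZP Pool.Agent.TH551.ZP.GT
open Pool.Agent.Y419.RT Pool.Agent.TH461.SST

variable {n N : ℕ}

/-- the exponents of degree at most `N` in each variable, among the exponents of degree at most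
`N * (n + 1)` -/
def emb (g : Fin (n + 1) → Fin (N + 1)) : Ex (n + 1) (N * (n + 1)) :=
  ⟨fun j => ⟨(g j : ℕ), by
      have h1 : (g j : ℕ) ≤ N := Nat.le_of_lt_succ (g j).2
      have h2 : N ≤ N * (n + 1) := Nat.le_mul_of_pos_right N (Nat.succ_pos n)
      omega⟩, by
    calc ∑ j, (g j : ℕ) ≤ ∑ _j : Fin (n + 1), N :=
          Finset.sum_le_sum fun j _ => Nat.le_of_lt_succ (g j).2
      _ = N * (n + 1) := by
          rw [Finset.sum_const, Finset.card_univ, Fintype.card_fin, smul_eq_mul, mul_comm]⟩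

lemma pol_eval (X : Fin (n + 2) → ℤ) (h : X 0 ≠ 0) (u : Fin (n + 1) → ℚ)
    (hu : ∀ j, u j = (X (Fin.succ j) : ℚ) / (X 0 : ℚ)) (w : (Fin (n + 1) → Fin (N + 1)) → ℚ) :
    ∑ g, w g * (mu X (emb g) : ℚ) =
      (X 0 : ℚ) ^ (N * (n + 1)) * MvPolynomial.aeval u (pol ℚ (n + 1) N w) := by
  unfold pol
  rw [LinearMap.sum_apply, map_sum, Finset.mul_sum]
  refine Finset.sum_congr rfl fun g _ => ?_
  rw [LinearMap.comp_apply, LinearMap.proj_apply, MvPolynomial.aeval_monomial]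
  have h0 : (X 0 : ℚ) ≠ 0 := by exact_mod_cast h
  have h1 : (Finsupp.equivFunOnFinite.symm fun i => ((g i : Fin (N + 1)) : ℕ)).prod
      (fun i k => u i ^ k) = ∏ j, u j ^ (g j : ℕ) := by
    rw [Finsupp.prod_fintype _ _ (fun i => pow_zero _)]
    rfl
  rw [h1]
  show w g * (mu X (emb g) : ℚ) = (X 0 : ℚ) ^ (N * (n + 1)) * (w g * ∏ j, u j ^ (g j : ℕ))
  have h3 : mu X (emb g) = X 0 ^ (N * (n + 1) - ∑ j, (g j : ℕ)) *
      ∏ j, X (Fin.succ j) ^ (g j : ℕ) := rfl
  rw [h3]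
  push_cast
  simp only [hu, div_pow]
  rw [Finset.prod_div_distrib, Finset.prod_pow_eq_pow_sum]
  have h2 : (X 0 : ℚ) ^ (N * (n + 1)) = (X 0 : ℚ) ^ (N * (n + 1) - ∑ j, (g j : ℕ)) *
      (X 0 : ℚ) ^ (∑ j, (g j : ℕ)) := by
    rw [← pow_add, Nat.sub_add_cancel (show ∑ j, (g j : ℕ) ≤ N * (n + 1) from (emb g).2)]
  rw [h2]
  field_simp

lemma pol_inj {w : (Fin (n + 1) → Fin (N + 1)) → ℚ} (h : pol ℚ (n + 1) N w = 0) : w = 0 := by
  classical
  funext g
  have h1 := congrArg (MvPolynomial.coeff (Finsupp.equivFunOnFinite.symm fun i => ((g i : Fin (N + 1)) : ℕ))) h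
  unfold pol at h1
  rw [LinearMap.sum_apply, MvPolynomial.coeff_sum, Finset.sum_eq_single g] at h1
  · rw [LinearMap.comp_apply, LinearMap.proj_apply, MvPolynomial.coeff_monomial, if_pos rfl,
      MvPolynomial.coeff_zero] at h1
    exact h1
  · intro g' _ hg'
    rw [LinearMap.comp_apply, LinearMap.proj_apply, MvPolynomial.coeff_monomial, if_neg]
    intro h2
    apply hg'
    funext i
    apply Fin.ext
    exact congrArg (fun f : Fin (n + 1) →₀ ℕ => f i) h2
  · intro h2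
    exact absurd (Finset.mem_univ _) h2

/-- passing to a subsequence along which a function with finitely many values is constant -/
lemma exists_const {α : Type} [Finite α] {P : ℕ → Prop} (hP : ∃ᶠ t in atTop, P t) (r : ℕ → α) :
    ∃ a, ∃ᶠ t in atTop, P t ∧ r t = a := by
  by_contra hcon
  push Not at hcon
  have h1 : ∀ᶠ t in atTop, ∀ a, ¬ (P t ∧ r t = a) := by
    rw [eventually_all]
    intro a
    exact not_frequently.1 (by simpa using hcon a)
  obtain ⟨t, h2, h3⟩ := (hP.and_eventually h1).exists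
  exact h3 (r t) ⟨h2, rfl⟩

/-- the data at one place: an integral matrix and the integral coefficients of an adapted basis -/
structure Plc {n N : ℕ} (M : ℕ) (W : Submodule ℚ ((Fin (n + 1) → Fin (N + 1)) → ℚ))
    (φ : Basis (Fin M) ℚ W) (R : (Fin (n + 1) → Fin (N + 1)) → ℕ) where
  A : Matrix (Fin M) (Fin M) ℤ
  ζ : Fin M → (Fin (n + 1) → Fin (N + 1)) → ℤ
  τ : Fin M → (Fin (n + 1) → Fin (N + 1))
  det : A.det ≠ 0
  sum : ∀ l g, ∑ j, (A l j : ℚ) * (φ j : (Fin (n + 1) → Fin (N + 1)) → ℚ) g = ζ l g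
  inj : Function.Injective τ
  ord : ∀ l g, ζ l g ≠ 0 → R (τ l) ≤ R g

lemma exists_plc {n N : ℕ} (W : Submodule ℚ ((Fin (n + 1) → Fin (N + 1)) → ℚ))
    (φ : Basis (Fin (finrank ℚ W)) ℚ W)
    (R : (Fin (n + 1) → Fin (N + 1)) → Fin (Fintype.card (Fin (n + 1) → Fin (N + 1)) + 1)) :
    Nonempty (Plc (finrank ℚ W) W φ (fun g => (R g : ℕ))) := by
  obtain ⟨z, τ, h⟩ := ad_fin W
  obtain ⟨h1, h2, h3, h4⟩ := h R
  obtain ⟨A, ζ, h5, h6, h7⟩ := int_matrix W φ (z R) h1 h2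
  exact ⟨⟨A, ζ, τ R, h5, h6, h3, fun l g hg => h4 l g (h7 l g hg)⟩⟩

/-- integrality -/
lemma integral {s : ℕ} {b : Fin s → ℕ} (hb : ∀ v, (b v).Prime) {n N : ℕ}
    {f g : MvPolynomial (Fin (n + 1)) ℚ} (w : (Fin (n + 1) → Fin (N + 1)) → ℚ)
    (hw : w ∈ WW f g N) :
    ∃ D : ℤ, D ≠ 0 ∧ ∀ (X : Fin (n + 2) → ℤ) (e : Fin s → Fin (n + 2) → ℕ)
      (_ : ∀ i, |(X i : ℝ)| = ∏ v, (b v : ℝ) ^ (e v i)) (u : Fin (n + 1) → ℚ)
      (_ : ∀ j, u j = (X (Fin.succ j) : ℚ) / (X 0 : ℚ)) (G : ℤ)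
      (_ : ∀ v, IsCoprime G (b v : ℤ))
      (_ : ∃ y : ℚ, IntS b y ∧ MvPolynomial.aeval u f = (G : ℚ) * y)
      (_ : ∃ y : ℚ, IntS b y ∧ MvPolynomial.aeval u g = (G : ℚ) * y),
      ∃ x : ℤ, (x : ℚ) * G =
        D * ((X 0 : ℚ) ^ (N * (n + 1)) * MvPolynomial.aeval u (pol ℚ (n + 1) N w)) := by
  classical
  have hw' : pol ℚ (n + 1) N w ∈ Ideal.span {f, g} := hw
  obtain ⟨p, q, hpq⟩ := Ideal.mem_span_pair.1 hw'
  obtain ⟨D2, k, hD2, hk⟩ := common_den w
  obtain ⟨δp, hδp, hp⟩ := exists_den b p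
  obtain ⟨δq, hδq, hq⟩ := exists_den b q
  refine ⟨D2 * (δp * δq), mul_ne_zero hD2 (by positivity), ?_⟩
  intro X e hXe u hu G hG hGf hGg
  have hX0 : ∀ i, X i ≠ 0 := by
    intro i h0
    have h1 := hXe i
    rw [h0, Int.cast_zero, abs_zero] at h1
    have h2 : (0 : ℝ) < ∏ v, (b v : ℝ) ^ (e v i) := Finset.prod_pos fun v _ => by
      have := (hb v).pos
      positivity
    linarith
  have huI : ∀ j, IntS b (u j) := by
    intro j
    rw [hu, div_eq_mul_inv]
    exact IntS.mul (IntS.int b _) (IntS.inv_int hb (X 0) (fun v => e v 0) (hXe 0))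
  obtain ⟨y1, hy1, hf1⟩ := hGf
  obtain ⟨y2, hy2, hg1⟩ := hGg
  set Z : ℤ := (δp * δq) * ∑ g, k g * mu X (emb g) with hZ
  have hZe : (Z : ℚ) = ((D2 * (δp * δq) : ℤ) : ℚ) *
      ((X 0 : ℚ) ^ (N * (n + 1)) * MvPolynomial.aeval u (pol ℚ (n + 1) N w)) := by
    rw [← pol_eval X (hX0 0) u hu w, hZ]
    push_cast
    rw [Finset.mul_sum, Finset.mul_sum]
    refine Finset.sum_congr rfl fun g _ => ?_
    rw [hk]
    ring
  have hZy : (Z : ℚ) = G * (((D2 * δq * X 0 ^ (N * (n + 1)) : ℤ) : ℚ) *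
      (((δp : ℚ) * MvPolynomial.aeval u p) * y1) +
      ((D2 * δp * X 0 ^ (N * (n + 1)) : ℤ) : ℚ) *
      (((δq : ℚ) * MvPolynomial.aeval u q) * y2)) := by
    rw [hZe, ← hpq, map_add, map_mul, map_mul, hf1, hg1]
    push_cast
    ring
  obtain ⟨x, hx⟩ := dvd_of_IntS hG (IntS.add
    (IntS.mul (IntS.int b _) (IntS.mul (hp u huI) hy1))
    (IntS.mul (IntS.int b _) (IntS.mul (hq u huI) hy2))) hZy
  refine ⟨x, ?_⟩
  rw [← hZe, hx]
  push_cast
  ring

/-- **The greatest common divisor theorem.** -/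
theorem gcd : GcdStmt := by
  classical
  intro s b hb hbi n f g hf hg hrel X e hXe hdv u hu hgen h hh hXh G hG hGf hGg ε hε
  by_contra hcon
  have hfreq : ∃ᶠ t in atTop, Real.exp (ε * h t) < |(G t : ℝ)| := by
    refine (not_eventually.1 hcon).mono fun t ht => ?_
    exact not_le.1 ht
  obtain ⟨N, hM1, hN⟩ := choose_N f g hf hg hrel s ε hε
  set W := WW f g N with hW
  set φ := finBasis ℚ W with hφ
  set K1 : ℕ := N * (n + 1) with hK1
  have PP : ∀ R : (Fin (n + 1) → Fin (N + 1)) → Fin (Fintype.card (Fin (n + 1) → Fin (N + 1)) + 1),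
      Plc (finrank ℚ W) W φ (fun g => (R g : ℕ)) := fun R => Classical.choice (exists_plc W φ R)
  have hb2 : ∀ v, 2 ≤ b v := fun v => (hb v).two_le
  have hlb : ∀ v, 0 < Real.log (b v) := fun v => Real.log_pos (by exact_mod_cast hb2 v)
  -- facts on X
  have hX0 : ∀ t i, X t i ≠ 0 := by
    intro t i h0
    have h1 := hXe t i
    rw [h0, Int.cast_zero, abs_zero] at h1
    have h2 : (0 : ℝ) < ∏ v, (b v : ℝ) ^ (e t v i) := Finset.prod_pos fun v _ => by
      have := (hb v).pos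
      positivity
    linarith
  have hmu0 : ∀ t (g : Fin (n + 1) → Fin (N + 1)), mu (X t) (emb g) ≠ 0 := fun t g =>
    mu_ne (X t) (hX0 t) (emb g)
  have hmu1 : ∀ t (g : Fin (n + 1) → Fin (N + 1)), 1 ≤ |(mu (X t) (emb g) : ℝ)| := by
    intro t g
    exact_mod_cast Int.one_le_abs (hmu0 t g)
  have hlmu0 : ∀ t (g : Fin (n + 1) → Fin (N + 1)), 0 ≤ Real.log |(mu (X t) (emb g) : ℝ)| :=
    fun t g => Real.log_nonneg (hmu1 t g)
  have hlmu : ∀ t (g : Fin (n + 1) → Fin (N + 1)),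
      Real.log |(mu (X t) (emb g) : ℝ)| ≤ K1 * h t := fun t g =>
    mu_log_le (X t) (hX0 t) (h t) (hXh t) (emb g)
  have hlmuE : ∀ t (g : Fin (n + 1) → Fin (N + 1)), Real.log |(mu (X t) (emb g) : ℝ)| =
      ∑ v, (Ee (e t v) (emb g) : ℝ) * Real.log (b v) := fun t g =>
    mu_log_exp b hb (X t) (hX0 t) (e t) (hXe t) (emb g)
  have hEv0 : ∀ t v (g : Fin (n + 1) → Fin (N + 1)),
      0 ≤ (Ee (e t v) (emb g) : ℝ) * Real.log (b v) := fun t v g =>
    mul_nonneg (Nat.cast_nonneg _) (hlb v).le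
  have hEv : ∀ t v (g : Fin (n + 1) → Fin (N + 1)),
      (Ee (e t v) (emb g) : ℝ) * Real.log (b v) ≤ K1 * h t := by
    intro t v g
    refine le_trans ?_ (hlmu t g)
    rw [hlmuE]
    exact Finset.single_le_sum (f := fun v => (Ee (e t v) (emb g) : ℝ) * Real.log (b v))
      (fun v _ => hEv0 t v g) (Finset.mem_univ v)
  -- labels
  set r : ℕ → (((Fin (n + 1) → Fin (N + 1)) → Fin (Fintype.card (Fin (n + 1) → Fin (N + 1)) + 1)) ×
      (Fin s → (Fin (n + 1) → Fin (N + 1)) →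
        Fin (Fintype.card (Fin (n + 1) → Fin (N + 1)) + 1))) := fun t =>
    (rk (fun g => -Real.log |(mu (X t) (emb g) : ℝ)|),
      fun v => rk (fun g => ((Ee (e t v) (emb g) : ℕ) : ℝ))) with hr
  obtain ⟨ρ, hρ⟩ := exists_const hfreq r
  -- the integral points
  choose Dj hDj hxj using fun j => integral (N := N) (f := f) (g := g) hb
    (φ j : (Fin (n + 1) → Fin (N + 1)) → ℚ) (φ j).2
  set D1 : ℤ := ∏ j, Dj j with hD1
  have hD10 : D1 ≠ 0 := Finset.prod_ne_zero_iff.2 fun j _ => hDj j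
  choose xj hxj' using fun t j => hxj j (X t) (e t) (hXe t) (u t) (hu t) (G t) (hG t) (hGf t)
    (hGg t)
  set x : ℕ → Fin (finrank ℚ W) → ℤ := fun t j => (∏ i ∈ Finset.univ.erase j, Dj i) * xj t j
    with hx
  have hxG : ∀ t j, (x t j : ℚ) * G t = D1 * ((X t 0 : ℚ) ^ K1 *
      MvPolynomial.aeval (u t) (pol ℚ (n + 1) N (φ j : (Fin (n + 1) → Fin (N + 1)) → ℚ))) := by
    intro t j
    rw [hD1, ← Finset.mul_prod_erase _ _ (Finset.mem_univ j)]
    show (((∏ i ∈ Finset.univ.erase j, Dj i) * xj t j : ℤ) : ℚ) * G t = _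
    have h1 := hxj' t j
    push_cast
    rw [mul_assoc, h1]
    ring
  have hxmu : ∀ t j, (x t j : ℚ) * G t = D1 * ∑ g, (φ j : (Fin (n + 1) → Fin (N + 1)) → ℚ) g * (mu (X t) (emb g) : ℚ) := by
    intro t j
    rw [hxG, pol_eval (X t) (hX0 t 0) (u t) (hu t)]
  have hplace : ∀ (R : (Fin (n + 1) → Fin (N + 1)) → ℕ) (Q : Plc (finrank ℚ W) W φ R) t l,
      (∑ j, Q.A l j * x t j) * G t = D1 * ∑ g, Q.ζ l g * mu (X t) (emb g) := by
    intro R Q t l
    have h1 : (((∑ j, Q.A l j * x t j) * G t : ℤ) : ℚ) =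
        ((D1 * ∑ g, Q.ζ l g * mu (X t) (emb g) : ℤ) : ℚ) := by
      push_cast
      rw [Finset.sum_mul]
      calc ∑ j, (Q.A l j : ℚ) * x t j * G t =
          ∑ j, (Q.A l j : ℚ) * (D1 * ∑ g, (φ j : (Fin (n + 1) → Fin (N + 1)) → ℚ) g * (mu (X t) (emb g) : ℚ)) := by
            refine Finset.sum_congr rfl fun j _ => ?_
            rw [← hxmu]
            ring
        _ = D1 * ∑ g, (∑ j, (Q.A l j : ℚ) * (φ j : (Fin (n + 1) → Fin (N + 1)) → ℚ) g) * (mu (X t) (emb g) : ℚ) := by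
            simp only [Finset.mul_sum, Finset.sum_mul]
            rw [Finset.sum_comm]
            exact Finset.sum_congr rfl fun j _ => Finset.sum_congr rfl fun g _ => by ring
        _ = _ := by
            simp only [Q.sum]
    exact_mod_cast h1
  -- the constants
  set Q0 := PP ρ.1 with hQ0
  set Qv := fun v => PP (ρ.2 v) with hQv
  set B : ℝ := 1 + ∑ l, |(D1 : ℝ)| * ∑ g, |(Q0.ζ l g : ℝ)| with hB
  have hB1 : 1 ≤ B := by
    have : 0 ≤ ∑ l, |(D1 : ℝ)| * ∑ g, |(Q0.ζ l g : ℝ)| := by positivity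
    linarith
  have hlB : 0 ≤ Real.log B := Real.log_nonneg hB1
  -- the subsequence
  have hj0 : 0 < finrank ℚ W := hM1
  have hpol : pol ℚ (n + 1) N (φ ⟨0, hj0⟩ : (Fin (n + 1) → Fin (N + 1)) → ℚ) ≠ 0 := by
    intro h0
    have h1 := pol_inj h0
    exact φ.ne_zero ⟨0, hj0⟩ (Subtype.ext h1)
  have hev := (hgen _ hpol).and ((hh.eventually_ge_atTop 1).and
    ((hh.eventually_ge_atTop (Real.log B)).and
    (hh.eventually_ge_atTop (Real.log B * 4 / ε))))
  obtain ⟨ν, hν, hν'⟩ := extraction_of_frequently_atTop (hρ.and_eventually hev)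
  have hνG : ∀ t, Real.exp (ε * h (ν t)) < |(G (ν t) : ℝ)| := fun t => (hν' t).1.1
  have hνρ : ∀ t, r (ν t) = ρ := fun t => (hν' t).1.2
  have hνp : ∀ t, MvPolynomial.aeval (u (ν t)) (pol ℚ (n + 1) N (φ ⟨0, hj0⟩ : (Fin (n + 1) → Fin (N + 1)) → ℚ)) ≠ 0 :=
    fun t => (hν' t).2.1
  have hν1 : ∀ t, 1 ≤ h (ν t) := fun t => (hν' t).2.2.1
  have hνB : ∀ t, Real.log B ≤ h (ν t) := fun t => (hν' t).2.2.2.1
  have hνB4 : ∀ t, Real.log B * 4 / ε ≤ h (ν t) := fun t => (hν' t).2.2.2.2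
  have hG0 : ∀ t, (0 : ℝ) < |(G (ν t) : ℝ)| := fun t => (Real.exp_pos _).trans (hνG t)
  have hlG : ∀ t, ε * h (ν t) ≤ Real.log |(G (ν t) : ℝ)| := by
    intro t
    rw [← Real.log_exp (ε * h (ν t))]
    exact Real.log_le_log (Real.exp_pos _) (hνG t).le
  have hx0 : ∀ t, x (ν t) ≠ 0 := by
    intro t h0
    have h1 := hxG (ν t) ⟨0, hj0⟩
    rw [h0, Pi.zero_apply, Int.cast_zero, zero_mul] at h1
    have h2 : (X (ν t) 0 : ℚ) ^ K1 ≠ 0 := pow_ne_zero _ (by exact_mod_cast hX0 (ν t) 0)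
    have h3 : (D1 : ℚ) ≠ 0 := by exact_mod_cast hD10
    exact mul_ne_zero h3 (mul_ne_zero h2 (hνp t)) h1.symm
  -- the real place
  have hreal : ∀ t l, |((∑ j, Q0.A l j * x (ν t) j : ℤ) : ℝ)| * |(G (ν t) : ℝ)| ≤
      B * |(mu (X (ν t)) (emb (Q0.τ l)) : ℝ)| := by
    intro t l
    rw [← abs_mul]
    have h1 : (((∑ j, Q0.A l j * x (ν t) j : ℤ) : ℝ)) * (G (ν t) : ℝ) =
        (D1 : ℝ) * ∑ g, (Q0.ζ l g : ℝ) * (mu (X (ν t)) (emb g) : ℝ) := by
      have h2 := hplace _ Q0 (ν t) l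
      exact_mod_cast congrArg (fun z : ℤ => (z : ℝ)) h2
    rw [h1, abs_mul]
    have h3 : |∑ g, (Q0.ζ l g : ℝ) * (mu (X (ν t)) (emb g) : ℝ)| ≤
        (∑ g, |(Q0.ζ l g : ℝ)|) * |(mu (X (ν t)) (emb (Q0.τ l)) : ℝ)| := by
      refine (Finset.abs_sum_le_sum_abs _ _).trans ?_
      rw [Finset.sum_mul]
      refine Finset.sum_le_sum fun g _ => ?_
      rw [abs_mul]
      by_cases hz : Q0.ζ l g = 0
      · rw [hz, Int.cast_zero, abs_zero, zero_mul, zero_mul]
      · refine mul_le_mul_of_nonneg_left ?_ (abs_nonneg _)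
        have h4 := Q0.ord l g hz
        have h5 : ρ.1 = rk (fun g => -Real.log |(mu (X (ν t)) (emb g) : ℝ)|) := by
          rw [← hνρ t]
        have h6 : rk (fun g => -Real.log |(mu (X (ν t)) (emb g) : ℝ)|) (Q0.τ l) ≤
            rk (fun g => -Real.log |(mu (X (ν t)) (emb g) : ℝ)|) g := by
          rw [← h5]
          exact h4
        have h7 := rk_le _ _ _ h6
        have h8 := neg_le_neg_iff.1 h7
        exact (Real.log_le_log_iff (by linarith [hmu1 (ν t) g])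
          (by linarith [hmu1 (ν t) (Q0.τ l)])).1 h8
    calc |(D1 : ℝ)| * |∑ g, (Q0.ζ l g : ℝ) * (mu (X (ν t)) (emb g) : ℝ)| ≤
        |(D1 : ℝ)| * ((∑ g, |(Q0.ζ l g : ℝ)|) * |(mu (X (ν t)) (emb (Q0.τ l)) : ℝ)|) :=
          mul_le_mul_of_nonneg_left h3 (abs_nonneg _)
      _ = (|(D1 : ℝ)| * ∑ g, |(Q0.ζ l g : ℝ)|) * |(mu (X (ν t)) (emb (Q0.τ l)) : ℝ)| := by ring
      _ ≤ B * |(mu (X (ν t)) (emb (Q0.τ l)) : ℝ)| := by
          refine mul_le_mul_of_nonneg_right ?_ (abs_nonneg _)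
          have h4 : |(D1 : ℝ)| * ∑ g, |(Q0.ζ l g : ℝ)| ≤
              ∑ l, |(D1 : ℝ)| * ∑ g, |(Q0.ζ l g : ℝ)| :=
            Finset.single_le_sum (f := fun l => |(D1 : ℝ)| * ∑ g, |(Q0.ζ l g : ℝ)|)
              (fun l _ => by positivity) (Finset.mem_univ l)
          linarith
  have hGup : ∀ t, Real.log |(G (ν t) : ℝ)| ≤ Real.log B + K1 * h (ν t) := by
    intro t
    obtain ⟨l, hl⟩ : ∃ l, ∑ j, Q0.A l j * x (ν t) j ≠ 0 := by
      by_contra hcon2
      push Not at hcon2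
      apply hx0 t
      exact Matrix.eq_zero_of_mulVec_eq_zero Q0.det (funext hcon2)
    have h1 : (1 : ℝ) ≤ |((∑ j, Q0.A l j * x (ν t) j : ℤ) : ℝ)| := by
      exact_mod_cast Int.one_le_abs hl
    have h2 := hreal t l
    have h3 : |(G (ν t) : ℝ)| ≤ B * |(mu (X (ν t)) (emb (Q0.τ l)) : ℝ)| := by
      refine le_trans ?_ h2
      exact le_mul_of_one_le_left (abs_nonneg _) h1
    have h4 := Real.log_le_log (hG0 t) h3
    rw [Real.log_mul (by linarith) (by linarith [hmu1 (ν t) (Q0.τ l)])] at h4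
    linarith [hlmu (ν t) (Q0.τ l)]
  -- the finite places
  have hfin : ∀ t v l, (b v : ℤ) ^ (Ee (e (ν t) v) (emb ((Qv v).τ l))) ∣
      ∑ j, (Qv v).A l j * x (ν t) j := by
    intro t v l
    have h1 : (b v : ℤ) ^ (Ee (e (ν t) v) (emb ((Qv v).τ l))) ∣
        (∑ j, (Qv v).A l j * x (ν t) j) * G (ν t) := by
      rw [hplace _ (Qv v) (ν t) l]
      refine Dvd.dvd.mul_left (Finset.dvd_sum fun g _ => ?_) _
      by_cases hz : (Qv v).ζ l g = 0
      · rw [hz, zero_mul]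
        exact dvd_zero _
      · refine Dvd.dvd.mul_left ?_ _
        have h4 := (Qv v).ord l g hz
        have h5 : ρ.2 v = rk (fun g => ((Ee (e (ν t) v) (emb g) : ℕ) : ℝ)) := by
          rw [← hνρ t]
        have h6 : rk (fun g => ((Ee (e (ν t) v) (emb g) : ℕ) : ℝ)) ((Qv v).τ l) ≤
            rk (fun g => ((Ee (e (ν t) v) (emb g) : ℕ) : ℝ)) g := by
          rw [← h5]
          exact h4
        have h7 := rk_le _ _ _ h6
        have h8 : Ee (e (ν t) v) (emb ((Qv v).τ l)) ≤ Ee (e (ν t) v) (emb g) := by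
          exact_mod_cast h7
        exact (pow_dvd_pow _ h8).trans (mu_dvd (X (ν t)) (b v : ℤ) (e (ν t) v)
          (fun i => hdv (ν t) i v) (emb g))
    refine IsCoprime.dvd_of_dvd_mul_right ?_ h1
    exact (hG (ν t) v).symm.pow_left
  -- the subspace theorem
  obtain ⟨y, hy, hyf⟩ := sst (finrank ℚ W) s hM1 Q0.A (fun v => (Qv v).A) b
    ⟨Q0.det, fun v => (Qv v).det, hb2, fun v v' hv => (Nat.coprime_primes (hb v) (hb v')).2
      fun h => hv (hbi h)⟩ ((K1 : ℝ) + 1) (ε / 4) (by linarith [Nat.cast_nonneg (α := ℝ) K1])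
    (by positivity) (fun t => h (ν t)) (hh.comp hν.tendsto_atTop)
    (fun t v l => Ee (e (ν t) v) (emb ((Qv v).τ l)))
    (fun t l => B * |(mu (X (ν t)) (emb (Q0.τ l)) : ℝ)| / |(G (ν t) : ℝ)|)
    (by
      intro t
      have hlA : ∀ l, Real.log (B * |(mu (X (ν t)) (emb (Q0.τ l)) : ℝ)| / |(G (ν t) : ℝ)|) =
          Real.log B + Real.log |(mu (X (ν t)) (emb (Q0.τ l)) : ℝ)| -
            Real.log |(G (ν t) : ℝ)| := by
        intro l
        have h1 := hmu1 (ν t) (Q0.τ l)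
        rw [Real.log_div (mul_ne_zero (by linarith) (by linarith)) (hG0 t).ne',
          Real.log_mul (by linarith) (by linarith)]
      have hht := hν1 t
      have hK0 : (0 : ℝ) ≤ K1 := Nat.cast_nonneg _
      refine ⟨?_, ?_, ?_, ?_⟩
      · intro v l
        have h1 := hEv (ν t) v ((Qv v).τ l)
        nlinarith
      · intro l
        have h1 := hmu1 (ν t) (Q0.τ l)
        have h2 := hG0 t
        have h3 : 0 < |(mu (X (ν t)) (emb (Q0.τ l)) : ℝ)| := by linarith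
        positivity
      · intro l
        rw [hlA, abs_le]
        have h1 := hlmu0 (ν t) (Q0.τ l)
        have h2 := hlmu (ν t) (Q0.τ l)
        have h3 := hGup t
        have h4 := hlG t
        have h5 := hνB t
        have h6 : 0 ≤ ε * h (ν t) := by positivity
        constructor <;> nlinarith
      · simp only [hlA]
        have hcard : Fintype.card (Fin (n + 1) → Fin (N + 1)) = (N + 1) ^ (n + 1) := by
          simp
        have hLHS : ∑ l : Fin (finrank ℚ W), (Real.log B +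
            Real.log |(mu (X (ν t)) (emb (Q0.τ l)) : ℝ)| - Real.log |(G (ν t) : ℝ)|) =
            (finrank ℚ W : ℝ) * (Real.log B - Real.log |(G (ν t) : ℝ)|) +
              ∑ l, Real.log |(mu (X (ν t)) (emb (Q0.τ l)) : ℝ)| := by
          rw [Finset.sum_sub_distrib, Finset.sum_add_distrib, Finset.sum_const, Finset.sum_const,
            Finset.card_univ, Fintype.card_fin, nsmul_eq_mul, nsmul_eq_mul]
          ring
        have h1 : ∑ l, Real.log |(mu (X (ν t)) (emb (Q0.τ l)) : ℝ)| ≤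
            ∑ g : Fin (n + 1) → Fin (N + 1), Real.log |(mu (X (ν t)) (emb g) : ℝ)| := by
          rw [← Finset.sum_image (s := Finset.univ) (g := Q0.τ)
            (f := fun g => Real.log |(mu (X (ν t)) (emb g) : ℝ)|)
            (fun a _ c _ hac => Q0.inj hac)]
          exact Finset.sum_le_sum_of_subset_of_nonneg (Finset.subset_univ _)
            fun g _ _ => hlmu0 (ν t) g
        have h2 : ∑ g : Fin (n + 1) → Fin (N + 1), Real.log |(mu (X (ν t)) (emb g) : ℝ)| =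
            ∑ v, ∑ g : Fin (n + 1) → Fin (N + 1),
              (Ee (e (ν t) v) (emb g) : ℝ) * Real.log (b v) := by
          rw [Finset.sum_comm]
          exact Finset.sum_congr rfl fun g _ => hlmuE (ν t) g
        have h3 : ∀ v, ∑ g : Fin (n + 1) → Fin (N + 1),
            (Ee (e (ν t) v) (emb g) : ℝ) * Real.log (b v) ≤
            ∑ l, (Ee (e (ν t) v) (emb ((Qv v).τ l)) : ℝ) * Real.log (b v) +
              ((((N : ℝ) + 1) ^ (n + 1) - finrank ℚ W) * (K1 * h (ν t))) := by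
          intro v
          have h4 : ∑ l, (Ee (e (ν t) v) (emb ((Qv v).τ l)) : ℝ) * Real.log (b v) =
              ∑ g ∈ Finset.univ.image (Qv v).τ,
                (Ee (e (ν t) v) (emb g) : ℝ) * Real.log (b v) := by
            rw [Finset.sum_image (fun a _ c _ hac => (Qv v).inj hac)]
          rw [h4, ← Finset.sum_add_sum_compl (Finset.univ.image (Qv v).τ)
            (fun g => (Ee (e (ν t) v) (emb g) : ℝ) * Real.log (b v))]
          refine add_le_add le_rfl ?_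
          refine (Finset.sum_le_card_nsmul _ _ (K1 * h (ν t)) fun g _ => hEv (ν t) v g).trans ?_
          rw [nsmul_eq_mul]
          refine le_of_eq ?_
          congr 1
          have h5 : (Finset.univ.image (Qv v).τ).card = finrank ℚ W := by
            rw [Finset.card_image_of_injective _ (Qv v).inj, Finset.card_univ, Fintype.card_fin]
          have h6 := (Finset.card_add_card_compl (Finset.univ.image (Qv v).τ)).trans hcard
          rw [h5] at h6
          have h7 : ((finrank ℚ W : ℕ) : ℝ) + ((Finset.univ.image (Qv v).τ)ᶜ.card : ℝ) =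
              ((N : ℝ) + 1) ^ (n + 1) := by exact_mod_cast h6
          linarith
        have h4 : ∑ v, ∑ g : Fin (n + 1) → Fin (N + 1),
            (Ee (e (ν t) v) (emb g) : ℝ) * Real.log (b v) ≤
            ∑ v, ∑ l, (Ee (e (ν t) v) (emb ((Qv v).τ l)) : ℝ) * Real.log (b v) +
              (s : ℝ) * ((((N : ℝ) + 1) ^ (n + 1) - finrank ℚ W) * (K1 * h (ν t))) := by
          refine (Finset.sum_le_sum fun v _ => h3 v).trans ?_
          rw [Finset.sum_add_distrib, Finset.sum_const, Finset.card_univ, Fintype.card_fin,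
            nsmul_eq_mul]
        have h5 : (s : ℝ) * ((((N : ℝ) + 1) ^ (n + 1) - finrank ℚ W) * (K1 * h (ν t))) ≤
            finrank ℚ W * (ε / 2) * h (ν t) := by
          have h6 := mul_le_mul_of_nonneg_right hN (show (0 : ℝ) ≤ h (ν t) by linarith)
          calc (s : ℝ) * ((((N : ℝ) + 1) ^ (n + 1) - finrank ℚ W) * (K1 * h (ν t))) =
              (s : ℝ) * ((((N : ℝ) + 1) ^ (n + 1) - finrank ℚ W) * ((K1 : ℕ) : ℝ)) * h (ν t) := by
                ring
            _ ≤ _ := h6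
        have hMr : (1 : ℝ) ≤ finrank ℚ W := by exact_mod_cast hM1
        have h6 := hlG t
        have h7 := hνB4 t
        have h8 : Real.log B * 4 ≤ h (ν t) * ε := by
          rwa [div_le_iff₀ hε] at h7
        have h9 : (finrank ℚ W : ℝ) * (Real.log B - Real.log |(G (ν t) : ℝ)|) ≤
            (finrank ℚ W : ℝ) * (h (ν t) * ε / 4 - ε * h (ν t)) :=
          mul_le_mul_of_nonneg_left (by linarith) (by linarith)
        have h10 : ε / 4 * h (ν t) ≤ (finrank ℚ W : ℝ) * (ε / 4 * h (ν t)) :=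
          le_mul_of_one_le_left (by positivity) hMr
        rw [hLHS]
        nlinarith)
    (fun t => x (ν t)) hx0
    (by
      intro t
      refine ⟨fun l => ?_, fun v l => hfin t v l⟩
      rw [le_div_iff₀ (hG0 t)]
      exact hreal t l)
  -- the contradiction
  have hw0 : pol ℚ (n + 1) N (∑ l, (y l : ℚ) • (φ l : (Fin (n + 1) → Fin (N + 1)) → ℚ)) ≠ 0 := by
    intro h0
    have h1 := pol_inj h0
    have h2 : ∑ l, (y l : ℚ) • φ l = 0 := by
      apply Subtype.ext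
      rw [AddSubmonoidClass.coe_finsetSum]
      simpa using h1
    have h3 := Fintype.linearIndependent_iff.1 φ.linearIndependent (fun l => (y l : ℚ)) h2
    apply hy
    funext l
    exact_mod_cast h3 l
  have h1 := hν.tendsto_atTop.eventually (hgen _ hw0)
  obtain ⟨t, h2, h3⟩ := (hyf.and_eventually h1).exists
  apply h3
  have h4 : ((∑ l, y l * x (ν t) l : ℤ) : ℚ) * G (ν t) = D1 * ((X (ν t) 0 : ℚ) ^ K1 *
      MvPolynomial.aeval (u (ν t)) (pol ℚ (n + 1) N (∑ l, (y l : ℚ) • (φ l : (Fin (n + 1) → Fin (N + 1)) → ℚ)))) := by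
    rw [map_sum, map_sum, Finset.mul_sum, Finset.mul_sum]
    push_cast
    rw [Finset.sum_mul]
    refine Finset.sum_congr rfl fun l _ => ?_
    rw [map_smul, map_smul, mul_assoc, hxG, smul_eq_mul]
    ring
  rw [h2, Int.cast_zero, zero_mul] at h4
  have h5 : (X (ν t) 0 : ℚ) ^ K1 ≠ 0 := pow_ne_zero _ (by exact_mod_cast hX0 (ν t) 0)
  have h6 : (D1 : ℚ) ≠ 0 := by exact_mod_cast hD10
  exact (mul_eq_zero.1 ((mul_eq_zero.1 h4.symm).resolve_left h6)).resolve_left h5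

end Pool.Agent.Run7.h280.ZP
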