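import Mathlib
import Pool.Agent.TH551.ZP.AR
import Pool.Agent.Run7.h280.ZP.Gcd
import Pool.Agent.Run7.h280.ZP.Free

/-!
# Points with many multiplicative relations modulo a finitely generated group
-/

set_option autoImplicit false

namespace Pool.Agent.Run7.h280.ZP

open Pool.Agent.TH551.SU Pool.Agent.TH551.ZP Pool.Agent.TH551.SU.Ht Pool.Agent.TH551.ZP.Fin'

/-- a rational number which is a unit outside the primes `b v` -/
lemma isSU_of_val {s : ℕ} {b : Fin s → ℕ} (hb : ∀ v, (b v).Prime) {x : ℚ} (hx : x ≠ 0)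
    (h : ∀ p : ℕ, p.Prime → (∀ v, b v ≠ p) → padicValRat p x = 0) : IsSU b x := by
  have hb0 : ∀ v, b v ≠ 0 := fun v => (hb v).ne_zero
  have hnum : ∀ p : ℕ, p.Prime → p ∣ x.num.natAbs → ∃ v, b v = p := by
    intro p hp hpd
    by_contra hcon
    push Not at hcon
    have h1 := h p hp hcon
    have : Fact p.Prime := ⟨hp⟩
    have h2 : ¬ p ∣ x.den := fun h3 =>
      hp.one_lt.ne' (Nat.dvd_one.1 (x.reduced ▸ Nat.dvd_gcd hpd h3))
    rw [padicValRat.eq_1, padicValNat.eq_zero_of_not_dvd h2] at h1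
    have h3 : padicValInt p x.num ≠ 0 := by
      rw [padicValInt]
      have h4 : x.num.natAbs ≠ 0 := by
        rw [Int.natAbs_ne_zero, Ne, Rat.num_eq_zero]
        exact hx
      have h5 := one_le_padicValNat_of_dvd h4 hpd
      omega
    apply h3
    have h4 : (padicValInt p x.num : ℤ) = 0 := by simpa using h1
    exact_mod_cast h4
  have hden : ∀ p : ℕ, p.Prime → p ∣ x.den → ∃ v, b v = p := by
    intro p hp hpd
    by_contra hcon
    push Not at hcon
    have h1 := h p hp hcon
    have : Fact p.Prime := ⟨hp⟩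
    have h2 : ¬ p ∣ x.num.natAbs := fun h3 =>
      hp.one_lt.ne' (Nat.dvd_one.1 (x.reduced ▸ Nat.dvd_gcd h3 hpd))
    rw [padicValRat.eq_1, padicValInt, padicValNat.eq_zero_of_not_dvd h2] at h1
    have h5 := one_le_padicValNat_of_dvd x.den_ne_zero hpd
    have h6 : (padicValNat p x.den : ℤ) = 0 := by simpa using h1
    have h7 : padicValNat p x.den = 0 := by exact_mod_cast h6
    omega
  have h1 : IsSU b ((x.num.natAbs : ℕ) : ℚ) := IsSU.nat hb0 _ (by
    rw [Int.natAbs_ne_zero, Ne, Rat.num_eq_zero]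
    exact hx) hnum
  have h2 : IsSU b (x.den : ℚ) := IsSU.nat hb0 _ x.den_ne_zero hden
  have h3 : IsSU b (x.num : ℚ) := by
    rcases Int.natAbs_eq x.num with h4 | h4
    · have h5 : (x.num : ℚ) = ((x.num.natAbs : ℕ) : ℚ) := by
        conv_lhs => rw [h4]
        rw [Int.cast_natCast]
      rw [h5]
      exact h1
    · have h5 : (x.num : ℚ) = -((x.num.natAbs : ℕ) : ℚ) := by
        conv_lhs => rw [h4]
        rw [Int.cast_neg, Int.cast_natCast]
      rw [h5]
      exact IsSU.neg h1
  have h4 := IsSU.mul hb0 h3 (IsSU.inv h2)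
  rw [← div_eq_mul_inv, Rat.num_div_den] at h4
  exact h4

/-- roots of units are units -/
lemma isSU_root {s : ℕ} {b : Fin s → ℕ} (hb : ∀ v, (b v).Prime) {x : ℚ} (hx : x ≠ 0) {k : ℤ}
    (hk : k ≠ 0) (h : IsSU b (x ^ k)) : IsSU b x := by
  refine isSU_of_val hb hx fun p hp hpb => ?_
  have : Fact p.Prime := ⟨hp⟩
  have h1 := AR.val_SU_out hb p hpb h
  rw [padicValRat.zpow] at h1
  exact (mul_eq_zero.1 h1).resolve_left (by exact_mod_cast hk)

/-- the group of the units outside the primes `b v` -/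
def SUgrp {s : ℕ} (b : Fin s → ℕ) (hb : ∀ v, (b v).Prime) : Subgroup ℚˣ where
  carrier := {g | IsSU b (g : ℚ)}
  mul_mem' := fun {x y} hx hy => by
    show IsSU b ((x * y : ℚˣ) : ℚ)
    rw [Units.val_mul]
    exact IsSU.mul (fun v => (hb v).ne_zero) hx hy
  one_mem' := by
    show IsSU b ((1 : ℚˣ) : ℚ)
    rw [Units.val_one]
    exact IsSU.one b
  inv_mem' := fun {x} hx => by
    show IsSU b ((x⁻¹ : ℚˣ) : ℚ)
    rw [Units.val_inv_eq_inv_val]
    exact IsSU.inv hx

lemma SUgrp_fg {s : ℕ} (b : Fin s → ℕ) (hb : ∀ v, (b v).Prime) : (SUgrp b hb).FG := by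
  classical
  have hb0 : ∀ v, (b v : ℚ) ≠ 0 := fun v => by exact_mod_cast (hb v).ne_zero
  refine ⟨{-1} ∪ Finset.univ.image fun v => Units.mk0 (b v : ℚ) (hb0 v), ?_⟩
  apply le_antisymm
  · rw [Subgroup.closure_le]
    intro g hg
    rw [Finset.mem_coe, Finset.mem_union, Finset.mem_singleton, Finset.mem_image] at hg
    rcases hg with rfl | ⟨v, _, rfl⟩
    · show IsSU b ((-1 : ℚˣ) : ℚ)
      rw [Units.val_neg, Units.val_one]
      exact IsSU.neg (IsSU.one b)
    · exact IsSU.base b v
  · rintro g ⟨σ, e, hσ, hg⟩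
    have h1 : g = (if σ = 1 then 1 else -1) * ∏ v, (Units.mk0 (b v : ℚ) (hb0 v)) ^ (e v) := by
      apply Units.ext
      rw [hg, Units.val_mul, Units.coe_prod]
      congr 1
      · rcases hσ with rfl | rfl <;> simp
      · refine Finset.prod_congr rfl fun v _ => ?_
        rw [Units.val_zpow_eq_zpow_val, Units.val_mk0]
    rw [h1]
    refine Subgroup.mul_mem _ ?_ (Subgroup.prod_mem _ fun v _ => Subgroup.zpow_mem _ ?_ _)
    · split_ifs
      · exact Subgroup.one_mem _
      · exact Subgroup.subset_closure (by simp)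
    · exact Subgroup.subset_closure (by
        rw [Finset.mem_coe, Finset.mem_union]
        exact Or.inr (Finset.mem_image_of_mem _ (Finset.mem_univ v)))

lemma zpow_sum_units {ι : Type} [Fintype ι] (g : ℚˣ) (f : ι → ℤ) :
    ∏ i, g ^ f i = g ^ ∑ i, f i := by
  classical
  have h : ∀ A : Finset ι, ∏ i ∈ A, g ^ f i = g ^ ∑ i ∈ A, f i := by
    intro A
    induction A using Finset.induction_on with
    | empty => simp
    | insert a A ha ih => rw [Finset.prod_insert ha, Finset.sum_insert ha, zpow_add, ih]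
  exact h _

/-- coordinates with as many independent relations as there are coordinates -/
lemma pow_det_mem {d : ℕ} (G : Subgroup ℚˣ) (B : Matrix (Fin d) (Fin d) ℤ) (x : Fin d → ℚˣ)
    (h : ∀ i, ∏ j, x j ^ (B i j) ∈ G) (j : Fin d) : x j ^ B.det ∈ G := by
  classical
  have h1 : ∏ i, (∏ l, x l ^ (B i l)) ^ (B.adjugate j i) = x j ^ B.det := by
    calc ∏ i, (∏ l, x l ^ (B i l)) ^ (B.adjugate j i) =
        ∏ i, ∏ l, x l ^ (B.adjugate j i * B i l) := by
          refine Finset.prod_congr rfl fun i _ => ?_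
          rw [← Finset.prod_zpow]
          refine Finset.prod_congr rfl fun l _ => ?_
          rw [← zpow_mul, mul_comm]
      _ = ∏ l, x l ^ ((B.adjugate * B) j l) := by
          rw [Finset.prod_comm]
          refine Finset.prod_congr rfl fun l _ => ?_
          rw [Matrix.mul_apply]
          exact zpow_sum_units (x l) _
      _ = x j ^ B.det := by
          rw [Matrix.adjugate_mul, Finset.prod_eq_single j]
          · simp [Matrix.smul_apply]
          · intro l _ hl
            simp [Matrix.smul_apply, Matrix.one_apply_ne (Ne.symm hl)]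
          · intro h2
            exact absurd (Finset.mem_univ j) h2
  rw [← h1]
  exact Subgroup.prod_mem _ fun i _ => Subgroup.zpow_mem _ (h i) _

end Pool.Agent.Run7.h280.ZP
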