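import Mathlib
import Pool.Agent.Run7.h280.ZP.Rel

/-!
# Points of a finitely generated group and algebraic subgroups of the torus
-/

set_option autoImplicit false

namespace Pool.Agent.Run7.h280.ZP

open Pool.Agent.TH551.SU Pool.Agent.TH551.ZP Pool.Agent.TH551.SU.Ht

/-- the theorem `MP_defd1c_ag.CoprimeValues` -/
theorem core (n k m : ℕ)
    (p : Fin k → MvPolynomial (Fin (n + 1)) ℚ)
    -- the differences of the exponents of the monomials of `p κ` span the space
    (hspan : ∀ κ, ∀ c : Fin (n + 1) → ℤ, (∀ a ∈ (p κ).support, ∀ a' ∈ (p κ).support,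
      ∑ j, c j * ((a j : ℤ) - (a' j : ℤ)) = 0) → c = 0)
    (hcop : ∀ κ κ', κ ≠ κ' → IsRelPrime (p κ) (p κ'))
    (y : Fin m → ℚˣ) (A : Fin m → Fin (n + 1) → ℤ) (E : Fin m → Fin k → ℤ)
    (hE : LinearIndependent ℤ E) (Γ : Subgroup ℚˣ) (hΓ : Γ.FG) :
    ∃ Φ : MvPolynomial (Fin (n + 1)) ℚ, Φ ≠ 0 ∧
      -- for every point `(x, z)` of the variety
      ∀ (x : Fin (n + 1) → ℚˣ) (z : Fin m → ℚˣ) (v : Fin k → ℚˣ),
        (∀ κ, (v κ : ℚ) = MvPolynomial.aeval (fun j => (x j : ℚ)) (p κ)) →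
        (∀ i, z i = y i * (∏ j, x j ^ A i j) * ∏ κ, v κ ^ E i κ) →
        -- and `n + 2` independent relations modulo `Γ`, all but one of which only concern `x`
        ∀ (a : Fin (n + 2) → Fin (n + 1) → ℤ) (c : Fin (n + 2) → Fin m → ℤ),
          LinearIndependent ℤ (fun i => (a i, c i)) →
          (∀ i : Fin (n + 1), c i.castSucc = 0) →
          (∀ i, (∏ j, x j ^ a i j) * ∏ l, z l ^ c i l ∈ Γ) →
          MvPolynomial.aeval (fun j => (x j : ℚ)) Φ = 0 := by
  classical
  obtain ⟨s, b, hb, hbi, hΓb⟩ := exists_base Γ hΓ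
  obtain ⟨Φ, hΦ, H⟩ := Pool.Agent.TH551.ZP.Fin'.main gcd free AR.decomp AR.maxExp AR.intUnit
    AR.numDen n k m p hspan hcop (fun i => ((y i : ℚˣ) : ℚ)) (fun i => (y i).ne_zero) A E hE
    (SUgrp b hb) (SUgrp_fg b hb)
  refine ⟨Φ, hΦ, fun x z v hv hz a c hind hc hrel => ?_⟩
  -- the first relations
  set B : Matrix (Fin (n + 1)) (Fin (n + 1)) ℤ := fun i j => a i.castSucc j with hB
  have hdet : B.det ≠ 0 := by
    intro h0
    obtain ⟨w, hw, hwB⟩ := Matrix.exists_vecMul_eq_zero_iff.2 h0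
    apply hw
    have h1 := Fintype.linearIndependent_iff.1 hind (Fin.snoc w 0) (by
      rw [Fin.sum_univ_castSucc]
      simp only [Fin.snoc_castSucc, Fin.snoc_last, zero_smul, add_zero]
      rw [Prod.ext_iff]
      constructor
      · rw [Prod.fst_sum]
        funext j
        have h2 := congrFun hwB j
        simp only [Matrix.vecMul, dotProduct] at h2
        rw [Finset.sum_apply]
        exact h2
      · rw [Prod.snd_sum]
        refine Finset.sum_eq_zero fun i _ => ?_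
        show w i • c i.castSucc = 0
        rw [hc, smul_zero])
    funext i
    have h2 := h1 i.castSucc
    rw [Fin.snoc_castSucc] at h2
    exact h2
  have hc0 : c (Fin.last (n + 1)) ≠ 0 := by
    intro h0
    have hcz : ∀ i, c i = 0 := by
      intro i
      refine Fin.lastCases h0 hc i
    have h1 : LinearIndependent ℤ a := by
      rw [Fintype.linearIndependent_iff]
      intro g hg
      refine Fintype.linearIndependent_iff.1 hind g ?_
      rw [Prod.ext_iff]
      constructor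
      · rw [Prod.fst_sum]
        exact hg
      · rw [Prod.snd_sum]
        refine Finset.sum_eq_zero fun i _ => ?_
        show g i • c i = 0
        rw [hcz, smul_zero]
    have h2 := h1.fintype_card_le_finrank
    rw [Module.finrank_fin_fun, Fintype.card_fin] at h2
    omega
  have hxΓ : ∀ j, x j ^ B.det ∈ Γ := pow_det_mem Γ B x (fun i => by
    have h1 := hrel i.castSucc
    rw [hc i] at h1
    simpa using h1)
  have hxS : ∀ j, x j ∈ SUgrp b hb := by
    intro j
    have h1 := hΓb _ (hxΓ j)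
    rw [Units.val_zpow_eq_zpow_val] at h1
    exact isSU_root hb (x j).ne_zero hdet h1
  -- the last relation
  have hz1 : ∏ l, z l ^ c (Fin.last (n + 1)) l ∈ SUgrp b hb := by
    have h1 : (∏ j, x j ^ a (Fin.last (n + 1)) j) * ∏ l, z l ^ c (Fin.last (n + 1)) l ∈
        SUgrp b hb := hΓb _ (hrel (Fin.last (n + 1)))
    have h2 : ∏ j, x j ^ a (Fin.last (n + 1)) j ∈ SUgrp b hb :=
      Subgroup.prod_mem _ fun j _ => Subgroup.zpow_mem _ (hxS j) _
    exact (Subgroup.mul_mem_cancel_left _ h2).1 h1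
  refine H (fun j => ⟨x j, hxS j⟩) (fun κ => ?_) (c (Fin.last (n + 1))) hc0 _ hz1 ?_
  · show MvPolynomial.aeval (fun j => (x j : ℚ)) (p κ) ≠ 0
    rw [← hv]
    exact (v κ).ne_zero
  · show ∏ i, ((y i : ℚ) * (∏ j, (x j : ℚ) ^ (A i j)) *
      ∏ κ, (MvPolynomial.aeval (fun j => (x j : ℚ)) (p κ)) ^ (E i κ)) ^
        (c (Fin.last (n + 1)) i) = ((∏ l, z l ^ c (Fin.last (n + 1)) l : ℚˣ) : ℚ)
    rw [Units.coe_prod]
    refine Finset.prod_congr rfl fun i _ => ?_
    rw [Units.val_zpow_eq_zpow_val, hz i, Units.val_mul, Units.val_mul, Units.coe_prod,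
      Units.coe_prod]
    simp only [Units.val_zpow_eq_zpow_val, hv]

/-- the module of the exponents of the relations: three blocks of variables -/
abbrev Ex3 (r d m : ℕ) := (Fin r → ℤ) × (Fin d → ℤ) × (Fin m → ℤ)

/-- the exponents which do not involve the last block -/
def noLast (r d m : ℕ) : Submodule ℤ (Ex3 r d m) where
  carrier := {l | l.2.2 = 0}
  add_mem' := fun {a b} ha hb => by
    show a.2.2 + b.2.2 = 0
    rw [show a.2.2 = 0 from ha, show b.2.2 = 0 from hb, add_zero]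
  zero_mem' := rfl
  smul_mem' := fun c a ha => by
    show c • a.2.2 = 0
    rw [show a.2.2 = 0 from ha, smul_zero]

/-- the value of a character -/
def chr {r d m : ℕ} {G : Type} [CommGroup G] (g : Fin r → G) (x : Fin d → G) (z : Fin m → G)
    (l : Ex3 r d m) : G :=
  (∏ i, g i ^ l.1 i) * (∏ j, x j ^ l.2.1 j) * ∏ i, z i ^ l.2.2 i

lemma chr_add {r d m : ℕ} {G : Type} [CommGroup G] (g : Fin r → G) (x : Fin d → G) (z : Fin m → G)
    (l l' : Ex3 r d m) : chr g x z (l + l') = chr g x z l * chr g x z l' := by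
  unfold chr
  simp only [Prod.fst_add, Prod.snd_add, Pi.add_apply, zpow_add, Finset.prod_mul_distrib]
  simp only [mul_assoc, mul_left_comm]

lemma chr_smul {r d m : ℕ} {G : Type} [CommGroup G] (g : Fin r → G) (x : Fin d → G) (z : Fin m → G)
    (w : ℤ) (l : Ex3 r d m) : chr g x z (w • l) = chr g x z l ^ w := by
  unfold chr
  simp only [Prod.smul_fst, Prod.smul_snd, Pi.smul_apply, smul_eq_mul, mul_zpow,
    ← Finset.prod_zpow, ← zpow_mul, mul_comm w]

lemma chr_sum {r d m : ℕ} {G : Type} [CommGroup G] (g : Fin r → G) (x : Fin d → G) (z : Fin m → G)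
    {ι : Type} (s : Finset ι) (w : ι → ℤ) (l : ι → Ex3 r d m) (h : ∀ i ∈ s, chr g x z (l i) = 1) :
    chr g x z (∑ i ∈ s, w i • l i) = 1 := by
  classical
  induction s using Finset.induction_on with
  | empty => simp [chr]
  | insert a s ha ih =>
    rw [Finset.sum_insert ha, chr_add, chr_smul, h a (Finset.mem_insert_self a s), one_zpow,
      one_mul]
    exact ih fun i hi => h i (Finset.mem_insert_of_mem hi)

/-- the choice of the relations -/
lemma choose_rel {r d m : ℕ} (Λ : Submodule ℤ (Ex3 r d m)) (h1 : d + 1 ≤ Module.finrank ℤ Λ)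
    (h2 : d ≤ Module.finrank ℤ (Λ ⊓ noLast r d m : Submodule ℤ (Ex3 r d m))) :
    ∃ l : Fin (d + 1) → Ex3 r d m, LinearIndependent ℤ l ∧ (∀ i, l i ∈ Λ) ∧
      ∀ i : Fin d, (l i.castSucc).2.2 = 0 := by
  obtain ⟨f, hf⟩ := exists_linearIndependent_of_le_finrank h2
  let u : Fin d → Λ := fun i => ⟨f i, (f i).2.1⟩
  have hu : LinearIndependent ℤ u := by
    have h3 : LinearIndependent ℤ fun i => ((f i : (Λ ⊓ noLast r d m : Submodule ℤ (Ex3 r d m))) :
        Ex3 r d m) := hf.map' (Submodule.subtype _) (Submodule.ker_subtype _)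
    exact LinearIndependent.of_comp Λ.subtype h3
  obtain ⟨x, hx⟩ := exists_linearIndependent_snoc_of_lt_finrank hu (by omega)
  refine ⟨fun i => ((Fin.snoc u x : Fin (d + 1) → Λ) i : Ex3 r d m),
    hx.map' Λ.subtype (Submodule.ker_subtype _), fun i => Subtype.property _, fun i => ?_⟩
  show (((Fin.snoc u x : Fin (d + 1) → Λ) i.castSucc : Λ) : Ex3 r d m).2.2 = 0
  rw [Fin.snoc_castSucc]
  exact (f i).2.2

/-- **The theorem in terms of algebraic subgroups.** `Λ` is the lattice of the characters which are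
trivial on the subgroup. -/
theorem sub_main (n k m r : ℕ) (g : Fin r → ℚˣ)
    (hg : ∀ b : Fin r → ℤ, ∏ i, g i ^ b i = 1 → b = 0)
    (p : Fin k → MvPolynomial (Fin (n + 1)) ℚ)
    (hspan : ∀ κ, ∀ c : Fin (n + 1) → ℤ, (∀ a ∈ (p κ).support, ∀ a' ∈ (p κ).support,
      ∑ j, c j * ((a j : ℤ) - (a' j : ℤ)) = 0) → c = 0)
    (hcop : ∀ κ κ', κ ≠ κ' → IsRelPrime (p κ) (p κ'))
    (y : Fin m → ℚˣ) (A : Fin m → Fin (n + 1) → ℤ) (E : Fin m → Fin k → ℤ)
    (hE : LinearIndependent ℤ E) :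
    ∃ Φ : MvPolynomial (Fin (n + 1)) ℚ, Φ ≠ 0 ∧
      ∀ (x : Fin (n + 1) → ℚˣ) (z : Fin m → ℚˣ) (v : Fin k → ℚˣ),
        (∀ κ, (v κ : ℚ) = MvPolynomial.aeval (fun j => (x j : ℚ)) (p κ)) →
        (∀ i, z i = y i * (∏ j, x j ^ A i j) * ∏ κ, v κ ^ E i κ) →
        ∀ Λ : Submodule ℤ (Ex3 r (n + 1) m), n + 2 ≤ Module.finrank ℤ Λ →
          n + 1 ≤ Module.finrank ℤ (Λ ⊓ noLast r (n + 1) m : Submodule ℤ (Ex3 r (n + 1) m)) →
          (∀ l ∈ Λ, chr g x z l = 1) →
          MvPolynomial.aeval (fun j => (x j : ℚ)) Φ = 0 := by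
  classical
  obtain ⟨Φ, hΦ, H⟩ := core n k m p hspan hcop y A E hE (Subgroup.closure (Set.range g))
    ⟨Finset.univ.image g, by rw [Finset.coe_image, Finset.coe_univ, Set.image_univ]⟩
  refine ⟨Φ, hΦ, fun x z v hv hz Λ h1 h2 hΛ => ?_⟩
  obtain ⟨l, hl, hlΛ, hl0⟩ := choose_rel Λ h1 h2
  refine H x z v hv hz (fun i => (l i).2.1) (fun i => (l i).2.2) ?_ hl0 ?_
  · rw [Fintype.linearIndependent_iff]
    intro w hw
    have h3 : chr g x z (∑ i, w i • l i) = 1 := chr_sum g x z _ w l fun i _ => hΛ _ (hlΛ i)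
    have h4 : (∑ i, w i • l i).2 = 0 := by
      rw [Prod.snd_sum]
      exact hw
    have h5 : (∑ i, w i • l i).1 = 0 := by
      apply hg
      unfold chr at h3
      rw [h4] at h3
      simpa using h3
    exact Fintype.linearIndependent_iff.1 hl w (Prod.ext h5 h4)
  · intro i
    have h3 := hΛ _ (hlΛ i)
    unfold chr at h3
    have h4 : (∏ j, x j ^ (l i).2.1 j) * ∏ t, z t ^ (l i).2.2 t = (∏ t, g t ^ (l i).1 t)⁻¹ := by
      rw [eq_inv_iff_mul_eq_one, ← h3, mul_comm, ← mul_assoc]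
    rw [h4]
    refine Subgroup.inv_mem _ (Subgroup.prod_mem _ fun t _ => Subgroup.zpow_mem _ ?_ _)
    exact Subgroup.subset_closure (Set.mem_range_self t)

/-- **The theorem in terms of relations between the coordinates of the points `(g, x, z)`.** -/
theorem rel_main (n k m r : ℕ) (g : Fin r → ℚˣ)
    (hg : ∀ b : Fin r → ℤ, ∏ i, g i ^ b i = 1 → b = 0)
    (p : Fin k → MvPolynomial (Fin (n + 1)) ℚ)
    (hspan : ∀ κ, ∀ c : Fin (n + 1) → ℤ, (∀ a ∈ (p κ).support, ∀ a' ∈ (p κ).support,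
      ∑ j, c j * ((a j : ℤ) - (a' j : ℤ)) = 0) → c = 0)
    (hcop : ∀ κ κ', κ ≠ κ' → IsRelPrime (p κ) (p κ'))
    (y : Fin m → ℚˣ) (A : Fin m → Fin (n + 1) → ℤ) (E : Fin m → Fin k → ℤ)
    (hE : LinearIndependent ℤ E) :
    ∃ Φ : MvPolynomial (Fin (n + 1)) ℚ, Φ ≠ 0 ∧
      ∀ (x : Fin (n + 1) → ℚˣ) (z : Fin m → ℚˣ) (v : Fin k → ℚˣ),
        (∀ κ, (v κ : ℚ) = MvPolynomial.aeval (fun j => (x j : ℚ)) (p κ)) →
        (∀ i, z i = y i * (∏ j, x j ^ A i j) * ∏ κ, v κ ^ E i κ) →
        ∀ e : Fin (n + 2) → (Fin r ⊕ Fin (n + 1) ⊕ Fin m) → ℤ, LinearIndependent ℤ e →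
          (∀ (i : Fin (n + 1)) (t : Fin m), e i.castSucc (Sum.inr (Sum.inr t)) = 0) →
          (∀ i, ∏ t, (Sum.elim g (Sum.elim x z) t) ^ e i t = 1) →
          MvPolynomial.aeval (fun j => (x j : ℚ)) Φ = 0 := by
  classical
  obtain ⟨Φ, hΦ, H⟩ := core n k m p hspan hcop y A E hE (Subgroup.closure (Set.range g))
    ⟨Finset.univ.image g, by rw [Finset.coe_image, Finset.coe_univ, Set.image_univ]⟩
  refine ⟨Φ, hΦ, fun x z v hv hz e he h0 he1 => ?_⟩
  let l : Fin (n + 2) → Ex3 r (n + 1) m := fun i =>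
    (fun t => e i (Sum.inl t), fun t => e i (Sum.inr (Sum.inl t)),
      fun t => e i (Sum.inr (Sum.inr t)))
  have hchr : ∀ i, chr g x z (l i) = 1 := by
    intro i
    have h := he1 i
    rw [Fintype.prod_sum_type, Fintype.prod_sum_type] at h
    simp only [Sum.elim_inl, Sum.elim_inr] at h
    unfold chr
    rw [mul_assoc]
    exact h
  refine H x z v hv hz (fun i => (l i).2.1) (fun i => (l i).2.2) ?_ ?_ ?_
  · rw [Fintype.linearIndependent_iff]
    intro w hw
    have h3 : chr g x z (∑ i, w i • l i) = 1 := chr_sum g x z _ w l fun i _ => hchr i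
    have h4 : (∑ i, w i • l i).2 = 0 := by
      rw [Prod.snd_sum]
      exact hw
    have h5 : (∑ i, w i • l i).1 = 0 := by
      apply hg
      unfold chr at h3
      rw [h4] at h3
      simpa using h3
    refine Fintype.linearIndependent_iff.1 he w ?_
    have h6 : (∑ i, w i • l i).2.1 = 0 := by rw [h4]; rfl
    have h7 : (∑ i, w i • l i).2.2 = 0 := by rw [h4]; rfl
    funext t
    rcases t with t | t | t
    · have := congrFun h5 t
      rw [Prod.fst_sum, Finset.sum_apply] at this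
      rw [Finset.sum_apply]
      exact this
    · have := congrFun h6 t
      rw [Prod.snd_sum, Prod.fst_sum, Finset.sum_apply] at this
      rw [Finset.sum_apply]
      exact this
    · have := congrFun h7 t
      rw [Prod.snd_sum, Prod.snd_sum, Finset.sum_apply] at this
      rw [Finset.sum_apply]
      exact this
  · intro i
    funext t
    exact h0 i t
  · intro i
    have h3 := hchr i
    unfold chr at h3
    have h4 : (∏ j, x j ^ (l i).2.1 j) * ∏ t, z t ^ (l i).2.2 t = (∏ t, g t ^ (l i).1 t)⁻¹ := by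
      rw [eq_inv_iff_mul_eq_one, ← h3, mul_comm, ← mul_assoc]
    rw [h4]
    refine Subgroup.inv_mem _ (Subgroup.prod_mem _ fun t _ => Subgroup.zpow_mem _ ?_ _)
    exact Subgroup.subset_closure (Set.mem_range_self t)

end Pool.Agent.Run7.h280.ZP
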